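import Pool.Agent.Helper496_UBoot.Proofs

/-!
# Subcritical bootstrap percolation on the square lattice: the mean occupation time at criticality

Let `U` be a subcritical update family for which the infection percolates almost surely at the
critical probability. Then the mean occupation time of the origin at the critical probability is
infinite, unless every direction is stable, in which case the critical probability is `1` and the
mean occupation time is `0`.
-/

set_option autoImplicit false

open MeasureTheory Helper496.UBoot

namespace Pool.Agent.Results.MP_28b826_pr.CriticalMean

/-- The mean occupation time of the origin at criticality, for subcritical update families which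
percolate at criticality. -/
theorem result (U : UpdateFamily) (hU : U.Subcritical)
    (hperc : law U.pc U.percolation = 1) :
    ((∃ θ, ¬ U.Stable θ) ∧ 0 < U.pc ∧ U.pc < 1 ∧ ∫⁻ ω, U.time ω ∂(law U.pc) = ⊤) ∨
    ((∀ θ, U.Stable θ) ∧ U.pc = 1 ∧ ∫⁻ ω, U.time ω ∂(law U.pc) = 0) :=
  U.dichotomy' hU hperc

end Pool.Agent.Results.MP_28b826_pr.CriticalMean
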